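import Pool.Agent.H6.NIDefs
import Pool.Agent.H6.NI7

namespace Pool.Agent.Results.MP_046d9d_an.RangeComplex

open Pool.Agent.H6.NIDefs

/-- For every `k ≥ 2` the set of the polynomial numerical indices of order `k` of nonzero complex
Banach spaces is exactly the interval `[k^{k/(1-k)}, 1]`. -/
theorem result (k : ℕ) (hk : 2 ≤ k) :
    rangeC k = Set.Icc ((k : ℝ) ^ ((k : ℝ) / (1 - (k : ℝ)))) 1 :=
  Pool.Agent.H6.NI.main k hk

end Pool.Agent.Results.MP_046d9d_an.RangeComplex
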